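import Mathlib
import Pool.Agent.TH10.RP.Defect

/-! Galois descent of linear independence (part TJ-2, second proof). -/

set_option autoImplicit false

namespace Pool.Agent.TH494.TJ

open Finset Pool.Agent.TH10.RP

theorem exists_zmod (p : ℕ) [Fact p.Prime] (x : AlgebraicClosure (ZMod p)) (hx : x ^ p = x) :
    ∃ a : ZMod p, algebraMap (ZMod p) (AlgebraicClosure (ZMod p)) a = x := by
  have : CharP (AlgebraicClosure (ZMod p)) p := charP_of_injective_algebraMap
    (algebraMap (ZMod p) (AlgebraicClosure (ZMod p))).injective p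
  have h1 : x ∈ (⊥ : Subfield (AlgebraicClosure (ZMod p))) :=
    (Subfield.mem_bot_iff_pow_eq_self _ p).2 hx
  rw [← ZMod.fieldRange_castHom_eq_bot p] at h1
  obtain ⟨a, ha⟩ := h1
  refine ⟨a, ?_⟩
  rw [← ha]
  exact congrFun (congrArg DFunLike.coe (Subsingleton.elim (algebraMap (ZMod p)
    (AlgebraicClosure (ZMod p))) (ZMod.castHom (dvd_refl p) (AlgebraicClosure (ZMod p))))) a

theorem MS_indep_closure (p d : ℕ) [hp : Fact p.Prime] (hpd : ¬ p ∣ d) :
    LinearIndepOn (AlgebraicClosure (ZMod p)) (vc p d) (MS p d : Set ℕ) := by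
  classical
  have hchar : CharP (AlgebraicClosure (ZMod p)) p := charP_of_injective_algebraMap
    (algebraMap (ZMod p) (AlgebraicClosure (ZMod p))).injective p
  have hex : ExpChar (AlgebraicClosure (ZMod p)) p := ExpChar.prime hp.out
  have key : ∀ n : ℕ, ∀ S : Finset ℕ, S.card = n → S ⊆ MS p d →
      ∀ c : ℕ → AlgebraicClosure (ZMod p),
      (∀ ζ : AlgebraicClosure (ZMod p), IsPrimitiveRoot ζ d →
        ∑ μ ∈ S, c μ * ((ζ ^ μ + 1) / (ζ ^ μ - 1)) = 0) → ∀ μ ∈ S, c μ = 0 := by
    intro n
    induction n with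
    | zero =>
      intro S hS _ c _ μ hμ
      rw [card_eq_zero.1 hS] at hμ
      exact absurd hμ (notMem_empty μ)
    | succ n ih =>
      intro S hS hSM c hc
      by_contra hcon
      push Not at hcon
      obtain ⟨m, hm, hcm⟩ := hcon
      set e : ℕ → AlgebraicClosure (ZMod p) := fun μ => c μ / c m with he
      have hem : e m = 1 := div_self hcm
      have h1 : ∀ ζ : AlgebraicClosure (ZMod p), IsPrimitiveRoot ζ d →
          ∑ μ ∈ S, e μ * ((ζ ^ μ + 1) / (ζ ^ μ - 1)) = 0 := by
        intro ζ hζ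
        have h2 := hc ζ hζ
        calc ∑ μ ∈ S, e μ * ((ζ ^ μ + 1) / (ζ ^ μ - 1)) =
            (c m)⁻¹ * ∑ μ ∈ S, c μ * ((ζ ^ μ + 1) / (ζ ^ μ - 1)) := by
              rw [mul_sum]
              refine sum_congr rfl fun μ _ => ?_
              rw [he]
              ring
          _ = 0 := by rw [h2, mul_zero]
      have h3 : ∀ η : AlgebraicClosure (ZMod p), IsPrimitiveRoot η d →
          ∑ μ ∈ S, e μ ^ p * ((η ^ μ + 1) / (η ^ μ - 1)) = 0 := by
        intro η hη
        obtain ⟨ζ, hζ⟩ := IsAlgClosed.exists_pow_nat_eq η hp.out.pos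
        have hζ2 : IsPrimitiveRoot ζ d := by
          refine ⟨?_, fun l hl => hη.dvd_of_pow_eq_one l ?_⟩
          · have h4 : (ζ ^ d) ^ p = 1 ^ p := by
              rw [← pow_mul, mul_comm, pow_mul, hζ, hη.pow_eq_one, one_pow]
            exact frobenius_inj (AlgebraicClosure (ZMod p)) p h4
          · rw [← hζ, ← pow_mul, mul_comm, pow_mul, hl, one_pow]
        have h4 := congrArg (frobenius (AlgebraicClosure (ZMod p)) p) (h1 ζ hζ2)
        rw [map_sum, map_zero] at h4
        rw [← h4]
        refine sum_congr rfl fun μ _ => ?_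
        have h6 : ∀ t : AlgebraicClosure (ZMod p), frobenius (AlgebraicClosure (ZMod p)) p
            (t * ((ζ ^ μ + 1) / (ζ ^ μ - 1))) = t ^ p * ((η ^ μ + 1) / (η ^ μ - 1)) := by
          intro t
          rw [map_mul, map_div₀, map_add, map_sub, map_one, map_pow, frobenius_def, frobenius_def, hζ]
        exact (h6 (e μ)).symm
      have h5 : ∀ μ ∈ S.erase m, e μ ^ p - e μ = 0 := by
        refine ih (S.erase m) (by rw [card_erase_of_mem hm, hS, Nat.add_sub_cancel])
          ((erase_subset m S).trans hSM) (fun μ => e μ ^ p - e μ) fun ζ hζ => ?_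
        have h6 := h3 ζ hζ
        have h7 := h1 ζ hζ
        rw [← add_sum_erase S _ hm] at h6 h7
        rw [hem, one_pow] at h6
        rw [hem] at h7
        simp only [sub_mul]
        rw [sum_sub_distrib]
        linear_combination h6 - h7
      have h8 : ∀ μ ∈ S, e μ ^ p = e μ := by
        intro μ hμ
        by_cases hμm : μ = m
        · rw [hμm, hem, one_pow]
        · exact sub_eq_zero.1 (h5 μ (mem_erase.2 ⟨hμm, hμ⟩))
      choose! f hf using fun μ (hμ : μ ∈ S) => exists_zmod p (e μ) (h8 μ hμ)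
      have h9 := MS_indep p d (fun μ => if μ ∈ S then f μ else 0) (fun ζ hζ => by
        rw [← sum_subset hSM (fun μ _ hμ => by rw [if_neg hμ, map_zero, zero_mul])]
        rw [← h1 ζ hζ]
        refine sum_congr rfl fun μ hμ => ?_
        rw [if_pos hμ, hf μ hμ]) m (hSM hm)
      simp only [if_pos hm] at h9
      have h10 := hf m hm
      rw [h9, map_zero, hem] at h10
      exact zero_ne_one h10
  rw [linearIndepOn_finset_iff]
  intro c hc
  refine key _ (MS p d) rfl (Subset.refl _) c fun ζ hζ => ?_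
  have h2 := congrFun hc ⟨ζ, hζ⟩
  rw [Finset.sum_apply, Pi.zero_apply] at h2
  rw [← h2]
  rfl

end Pool.Agent.TH494.TJ
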