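import Mathlib
import Pool.Agent.TH10.RP.Defect
import Pool.Agent.TH10.RP.JG
import Pool.Agent.TH10.RP.JB

/-! The rank of the cotangents modulo `p` is more than half of their number, and there are enough
roots of unity (part TJ-5, second proof). -/

set_option autoImplicit false

namespace Pool.Agent.TH494.TJ

open Finset Pool.Agent.TH10.RP

theorem rank_large : ∃ P0 : ℕ, ∀ (p : ℕ) [Fact p.Prime], P0 ≤ p → ∀ d : ℕ, 3 ≤ d → d ^ 2 ≤ 16 * p →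
    (II d).card < 2 * (MS p d).card := by
  obtain ⟨C, hC1, hC⟩ := two_pow_omega (1 / 8) (by norm_num)
  refine ⟨⌈4 ^ 8 * 16 ^ 5 * C ^ 16⌉₊ + 17, fun p hp hP d hd hdp => ?_⟩
  by_contra hcon
  rw [not_lt] at hcon
  have hpd : ¬ p ∣ d := by
    intro h
    have h1 := Nat.le_of_dvd (by omega) h
    have h2 : p ^ 2 ≤ 16 * p := (Nat.pow_le_pow_left h1 2).trans hdp
    nlinarith
  obtain ⟨G, hG0, hG1, hG2⟩ := rank_multi d hd
  have h3 := hG2 p hpd (MS p d) (MS_sub p d) (MS_span p d)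
  have h4 := Nat.le_of_dvd hG0 h3
  have h5 : p ^ (II d).card ≤ p ^ (2 * ((II d).card - (MS p d).card)) :=
    Nat.pow_le_pow_right hp.out.pos (by omega)
  have h6 : (II d).card ≠ 0 := by
    have h7 := card_II hd
    have h8 : 0 < d.totient := Nat.totient_pos.2 (by omega)
    omega
  have h9 : p ≤ 4 ^ (d.primeFactors.card + 1) * d :=
    (Nat.pow_le_pow_iff_left h6).1 ((h5.trans h4).trans hG1)
  have h10 := hC d (by omega)
  have hd0 : (0 : ℝ) ≤ d := Nat.cast_nonneg d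
  have h11 : ((2 : ℝ) ^ d.primeFactors.card) ^ 8 ≤ C ^ 8 * d := by
    calc ((2 : ℝ) ^ d.primeFactors.card) ^ 8 ≤ (C * (d : ℝ) ^ ((1 : ℝ) / 8)) ^ 8 :=
          pow_le_pow_left₀ (by positivity) h10 8
      _ = C ^ 8 * d := by
          rw [mul_pow, ← Real.rpow_natCast ((d : ℝ) ^ ((1 : ℝ) / 8)) 8, ← Real.rpow_mul hd0]
          norm_num
  have h12 : (p : ℝ) ≤ 4 * ((2 : ℝ) ^ d.primeFactors.card) ^ 2 * d := by
    have h13 : (p : ℝ) ≤ 4 ^ (d.primeFactors.card + 1) * d := by exact_mod_cast h9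
    calc (p : ℝ) ≤ 4 ^ (d.primeFactors.card + 1) * d := h13
      _ = 4 * ((2 : ℝ) ^ d.primeFactors.card) ^ 2 * d := by
          have h22 : (4 : ℝ) ^ d.primeFactors.card = ((2 : ℝ) ^ d.primeFactors.card) ^ 2 := by
            rw [← pow_mul, mul_comm d.primeFactors.card 2, pow_mul]
            norm_num
          rw [pow_succ, h22]
          ring
  have h14 : (p : ℝ) ^ 8 ≤ 4 ^ 8 * C ^ 16 * ((d : ℝ) ^ 2) ^ 5 := by
    calc (p : ℝ) ^ 8 ≤ (4 * ((2 : ℝ) ^ d.primeFactors.card) ^ 2 * d) ^ 8 :=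
          pow_le_pow_left₀ (by positivity) h12 8
      _ = 4 ^ 8 * (((2 : ℝ) ^ d.primeFactors.card) ^ 8) ^ 2 * (d : ℝ) ^ 8 := by ring
      _ ≤ 4 ^ 8 * (C ^ 8 * d) ^ 2 * (d : ℝ) ^ 8 := by gcongr
      _ = 4 ^ 8 * C ^ 16 * ((d : ℝ) ^ 2) ^ 5 := by ring
  have h15 : ((d : ℝ) ^ 2) ≤ 16 * p := by exact_mod_cast hdp
  have h16 : (p : ℝ) ^ 8 ≤ 4 ^ 8 * C ^ 16 * (16 * p) ^ 5 := by
    refine h14.trans ?_
    gcongr
  have hp1 : (1 : ℝ) ≤ p := by exact_mod_cast hp.out.one_le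
  have h17 : (p : ℝ) ^ 3 ≤ 4 ^ 8 * 16 ^ 5 * C ^ 16 := by
    have h18 : (p : ℝ) ^ 5 * (p : ℝ) ^ 3 ≤ (p : ℝ) ^ 5 * (4 ^ 8 * 16 ^ 5 * C ^ 16) := by
      calc (p : ℝ) ^ 5 * (p : ℝ) ^ 3 = (p : ℝ) ^ 8 := by ring
        _ ≤ 4 ^ 8 * C ^ 16 * (16 * p) ^ 5 := h16
        _ = (p : ℝ) ^ 5 * (4 ^ 8 * 16 ^ 5 * C ^ 16) := by ring
    exact le_of_mul_le_mul_left h18 (by positivity)
  have h19 : (p : ℝ) ≤ (p : ℝ) ^ 3 := le_self_pow₀ hp1 (by norm_num)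
  have h20 : (4 ^ 8 * 16 ^ 5 * C ^ 16 : ℝ) ≤ ⌈(4 ^ 8 * 16 ^ 5 * C ^ 16 : ℝ)⌉₊ := Nat.le_ceil _
  have h21 : ((⌈(4 ^ 8 * 16 ^ 5 * C ^ 16 : ℝ)⌉₊ : ℕ) : ℝ) + 17 ≤ p := by exact_mod_cast hP
  linarith

theorem tot_large : ∃ P0 : ℕ, ∀ p : ℕ, P0 ≤ p → ∃ l : ℕ, l ^ 2 ≤ 16 * p ∧
    p ≤ ∑ m ∈ Icc 2 l, m.totient := by
  refine ⟨16, fun p hp => ⟨Nat.sqrt (16 * p), Nat.sqrt_le' _, ?_⟩⟩
  set l := Nat.sqrt (16 * p) with hl
  have h1 : 16 * p < (l + 1) ^ 2 := Nat.lt_succ_sqrt' _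
  have h0 : l ^ 2 ≤ 16 * p := Nat.sqrt_le' _
  have h2 := totient_sum l
  have hl2 : 16 ≤ l := by
    rw [hl, Nat.le_sqrt]
    omega
  have h3 : ∑ d ∈ range (l + 1), d.totient = 1 + ∑ m ∈ Icc 2 l, m.totient := by
    have h4 : range (l + 1) = insert 0 (insert 1 (Icc 2 l)) := by
      ext a
      simp only [mem_range, mem_insert, mem_Icc]
      omega
    rw [h4, sum_insert, sum_insert, Nat.totient_zero, Nat.totient_one, zero_add]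
    · simp
    · simp
  rw [h3] at h2
  nlinarith

end Pool.Agent.TH494.TJ
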